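import Pool.Agent.Q163.Dr.Main

/-!
# The remaining two clauses
-/

set_option autoImplicit false

open Finset

namespace Q163.Dr

theorem coarsest (v : Finset (Fin 9) → ℝ) (hv : Pl v)
    (H : ∀ c : Fin 9 → ℝ, ∃ c' : Fin 9 → ℝ,
          {B : Finset (Fin 9) | B.card = 3 ∧ ∀ B' : Finset (Fin 9), B'.card = 3 →
              w B - ∑ i ∈ B, c i ≤ w B' - ∑ i ∈ B', c i} ⊆
          {B : Finset (Fin 9) | B.card = 3 ∧ ∀ B' : Finset (Fin 9), B'.card = 3 →
              v B - ∑ i ∈ B, c' i ≤ v B' - ∑ i ∈ B', c' i}) :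
    (∃ c : Fin 9 → ℝ, ∀ B : Finset (Fin 9), B.card = 3 →
          ∀ B' : Finset (Fin 9), B'.card = 3 →
            v B - ∑ i ∈ B, c i ≤ v B' - ∑ i ∈ B', c i) ∨
        ((∀ c : Fin 9 → ℝ, ∃ c' : Fin 9 → ℝ,
          {B : Finset (Fin 9) | B.card = 3 ∧ ∀ B' : Finset (Fin 9), B'.card = 3 →
              w B - ∑ i ∈ B, c i ≤ w B' - ∑ i ∈ B', c i} =
          {B : Finset (Fin 9) | B.card = 3 ∧ ∀ B' : Finset (Fin 9), B'.card = 3 →
              v B - ∑ i ∈ B, c' i ≤ v B' - ∑ i ∈ B', c' i}) ∧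
         (∀ c : Fin 9 → ℝ, ∃ c' : Fin 9 → ℝ,
          {B : Finset (Fin 9) | B.card = 3 ∧ ∀ B' : Finset (Fin 9), B'.card = 3 →
              v B - ∑ i ∈ B, c i ≤ v B' - ∑ i ∈ B', c i} =
          {B : Finset (Fin 9) | B.card = 3 ∧ ∀ B' : Finset (Fin 9), B'.card = 3 →
              w B - ∑ i ∈ B, c' i ≤ w B' - ∑ i ∈ B', c' i})) := by
  obtain ⟨t, m, c0, h⟩ := lin v H
  rcases lt_trichotomy t 0 with ht | ht | ht
  · exfalso
    have h' : ∀ x y z : Fin 9, x ≠ y → x ≠ z → y ≠ z →
        v {x, y, z} = t * w {x, y, z} + (c0 x + c0 y + c0 z) + m := by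
      intro x y z hxy hxz hyz
      rw [h {x, y, z} (card_triple hxy hxz hyz), sum_triple hxy hxz hyz]
    have a1 := h' 0 1 2 (by decide) (by decide) (by decide)
    have a2 := h' 0 3 6 (by decide) (by decide) (by decide)
    have a3 := h' 0 1 3 (by decide) (by decide) (by decide)
    have a4 := h' 0 2 6 (by decide) (by decide) (by decide)
    have a5 := h' 0 1 6 (by decide) (by decide) (by decide)
    have a6 := h' 0 2 3 (by decide) (by decide) (by decide)
    rw [v012] at a1
    rw [v036] at a2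
    rw [v013] at a3
    rw [v026] at a4
    rw [v016] at a5
    rw [v023] at a6
    have P := hv {0} 1 2 3 6 (by decide) (by decide) (by decide) (by decide) (by decide)
      (by decide) (by decide) (by decide) (by decide) (by decide) (by decide)
    rw [show (insert 1 (insert 2 {0}) : Finset (Fin 9)) = {0, 1, 2} by decide,
      show (insert 3 (insert 6 {0}) : Finset (Fin 9)) = {0, 3, 6} by decide,
      show (insert 1 (insert 3 {0}) : Finset (Fin 9)) = {0, 1, 3} by decide,
      show (insert 2 (insert 6 {0}) : Finset (Fin 9)) = {0, 2, 6} by decide,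
      show (insert 1 (insert 6 {0}) : Finset (Fin 9)) = {0, 1, 6} by decide,
      show (insert 2 (insert 3 {0}) : Finset (Fin 9)) = {0, 2, 3} by decide,
      a1, a2, a3, a4, a5, a6] at P
    rcases P with ⟨P1, P2⟩ | ⟨P1, P2⟩ | ⟨P1, P2⟩ <;> linarith
  · left
    refine ⟨c0, fun B hB B' hB' => ?_⟩
    rw [h B hB, h B' hB', ht]
    linarith
  · right
    constructor
    · intro c
      refine ⟨fun i => t * c i + c0 i, ?_⟩
      ext B
      simp only [Set.mem_ofPred_eq]
      refine and_congr_right fun hB => forall_congr' fun B' => forall_congr' fun hB' => ?_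
      rw [h B hB, h B' hB', sum_add_distrib, sum_add_distrib, ← mul_sum, ← mul_sum]
      constructor
      · intro q
        have := mul_le_mul_of_nonneg_left q ht.le
        linarith
      · intro q
        by_contra hcon
        push Not at hcon
        have := mul_lt_mul_of_pos_left hcon ht
        linarith
    · intro c
      refine ⟨fun i => (c i - c0 i) / t, ?_⟩
      ext B
      simp only [Set.mem_ofPred_eq]
      refine and_congr_right fun hB => forall_congr' fun B' => forall_congr' fun hB' => ?_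
      rw [h B hB, h B' hB', ← sum_div, ← sum_div, sum_sub_distrib, sum_sub_distrib]
      have e1 : ∀ a b : ℝ, t * (a - b / t) = t * a - b := by
        intro a b; field_simp
      constructor
      · intro q
        by_contra hcon
        push Not at hcon
        have := mul_lt_mul_of_pos_left hcon ht
        rw [e1, e1] at this
        linarith
      · intro q
        have := mul_le_mul_of_nonneg_left q ht.le
        rw [e1, e1] at this
        linarith

theorem not_corank :
    ¬ ∃ M : Matroid (Fin 9), M.E = Set.univ ∧ M.eRank = ((3 : ℕ) : ℕ∞) ∧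
        (∀ c : Fin 9 → ℝ, ∃ c' : Fin 9 → ℝ,
          {B : Finset (Fin 9) | B.card = 3 ∧ ∀ B' : Finset (Fin 9), B'.card = 3 →
              w B - ∑ i ∈ B, c i ≤ w B' - ∑ i ∈ B', c i} =
          {B : Finset (Fin 9) | B.card = 3 ∧ ∀ B' : Finset (Fin 9), B'.card = 3 →
              (((3 : ℕ) : ℝ) - ((M.eRk (B : Set (Fin 9))).toNat : ℝ)) - ∑ i ∈ B, c' i ≤
              (((3 : ℕ) : ℝ) - ((M.eRk (B' : Set (Fin 9))).toNat : ℝ)) - ∑ i ∈ B', c' i}) ∧
        (∀ c : Fin 9 → ℝ, ∃ c' : Fin 9 → ℝ,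
          {B : Finset (Fin 9) | B.card = 3 ∧ ∀ B' : Finset (Fin 9), B'.card = 3 →
              (((3 : ℕ) : ℝ) - ((M.eRk (B : Set (Fin 9))).toNat : ℝ)) - ∑ i ∈ B, c i ≤
              (((3 : ℕ) : ℝ) - ((M.eRk (B' : Set (Fin 9))).toNat : ℝ)) - ∑ i ∈ B', c i} =
          {B : Finset (Fin 9) | B.card = 3 ∧ ∀ B' : Finset (Fin 9), B'.card = 3 →
              w B - ∑ i ∈ B, c' i ≤ w B' - ∑ i ∈ B', c' i}) := by
  rintro ⟨M, -, hr, h1, h2⟩
  obtain ⟨t, m, c0, h⟩ := lin (fun B => ((3 : ℕ) : ℝ) - ((M.eRk (B : Set (Fin 9))).toNat : ℝ))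
    (fun c => (h1 c).imp fun c' hc' => hc'.subset)
  have ht := matroid_part M hr t m c0 h
  obtain ⟨c', hc'⟩ := h2 c0
  apply nontrivial
  refine ⟨c', fun B hB B' hB' => ?_⟩
  have hmem : B ∈ {B : Finset (Fin 9) | B.card = 3 ∧ ∀ B' : Finset (Fin 9), B'.card = 3 →
              (((3 : ℕ) : ℝ) - ((M.eRk (B : Set (Fin 9))).toNat : ℝ)) - ∑ i ∈ B, c0 i ≤
              (((3 : ℕ) : ℝ) - ((M.eRk (B' : Set (Fin 9))).toNat : ℝ)) - ∑ i ∈ B', c0 i} := by
    refine ⟨hB, fun B'' hB'' => ?_⟩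
    have e1 := h B hB
    have e2 := h B'' hB''
    rw [e1, e2, ht]
    linarith
  rw [hc'] at hmem
  exact hmem.2 B' hB'

end Q163.Dr
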