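import Pool.Agent.Q163.Dr.Table

/-!
# Every function that is constant up to a linear function on the cells is a multiple of the table
-/

set_option autoImplicit false

namespace Q163.Dr

/-- The triples with a positive value. -/
def pos : List (Fin 9 × Fin 9 × Fin 9) :=
  [(0, 3, 4), (0, 3, 5), (0, 3, 6), (0, 3, 7), (0, 4, 5), (0, 4, 6), (0, 4, 7), (0, 5, 6), (0, 5, 7), (0, 6, 7), (1, 3, 4), (1, 3, 6), (1, 4, 6), (2, 3, 4), (2, 3, 6), (2, 3, 8), (2, 4, 6), (2, 4, 8), (2, 6, 8), (3, 4, 5), (3, 4, 6), (3, 4, 7), (3, 4, 8), (3, 5, 6), (3, 5, 7), (3, 6, 7), (3, 6, 8), (4, 5, 6), (4, 5, 7), (4, 6, 7), (4, 6, 8), (5, 6, 7)]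

lemma pos_check : ∀ x y z : Fin 9, x < y → y < z → wz x y z = 0 ∨ (x, y, z) ∈ pos := by
  decide +kernel

lemma cv0 : ∀ i : Fin 9, cv 0 i = 0 := by decide +kernel

set_option maxRecDepth 100000 in
lemma sorted_lin (v : Finset (Fin 9) → ℝ) (c : Fin 6 → Fin 9 → ℝ) (m : Fin 6 → ℝ)
    (h : ∀ (k : Fin 6) (x y z : Fin 9), x ≠ y → x ≠ z → y ≠ z →
      cv k x + cv k y + cv k z = wz x y z + mv k → v {x, y, z} = c k x + c k y + c k z + m k) :
    ∃ t : ℝ, ∀ x y z : Fin 9, x < y → y < z →
      v {x, y, z} = t * (wz x y z : ℝ) + (c 0 x + c 0 y + c 0 z) + m 0 := by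
  obtain ⟨t, ht⟩ : ∃ t : ℝ, t = v {(0 : Fin 9), 3, 6} - (c 0 0 + c 0 3 + c 0 6) - m 0 := ⟨_, rfl⟩
  refine ⟨t, ?_⟩
  have e036 : v {(0 : Fin 9), 3, 6} = t + (c 0 0 + c 0 3 + c 0 6) + m 0 := by linear_combination -ht
  have e013 : v {(0 : Fin 9), 1, 3} = 0 + (c 0 0 + c 0 1 + c 0 3) + m 0 := by
    have a := h 0 0 1 3 (by decide) (by decide) (by decide) (by decide +kernel)
    linear_combination a
  have e014 : v {(0 : Fin 9), 1, 4} = 0 + (c 0 0 + c 0 1 + c 0 4) + m 0 := by
    have a := h 0 0 1 4 (by decide) (by decide) (by decide) (by decide +kernel)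
    linear_combination a
  have e015 : v {(0 : Fin 9), 1, 5} = 0 + (c 0 0 + c 0 1 + c 0 5) + m 0 := by
    have a := h 0 0 1 5 (by decide) (by decide) (by decide) (by decide +kernel)
    linear_combination a
  have e016 : v {(0 : Fin 9), 1, 6} = 0 + (c 0 0 + c 0 1 + c 0 6) + m 0 := by
    have a := h 0 0 1 6 (by decide) (by decide) (by decide) (by decide +kernel)
    linear_combination a
  have e017 : v {(0 : Fin 9), 1, 7} = 0 + (c 0 0 + c 0 1 + c 0 7) + m 0 := by
    have a := h 0 0 1 7 (by decide) (by decide) (by decide) (by decide +kernel)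
    linear_combination a
  have e023 : v {(0 : Fin 9), 2, 3} = 0 + (c 0 0 + c 0 2 + c 0 3) + m 0 := by
    have a := h 0 0 2 3 (by decide) (by decide) (by decide) (by decide +kernel)
    linear_combination a
  have e024 : v {(0 : Fin 9), 2, 4} = 0 + (c 0 0 + c 0 2 + c 0 4) + m 0 := by
    have a := h 0 0 2 4 (by decide) (by decide) (by decide) (by decide +kernel)
    linear_combination a
  have e026 : v {(0 : Fin 9), 2, 6} = 0 + (c 0 0 + c 0 2 + c 0 6) + m 0 := by
    have a := h 0 0 2 6 (by decide) (by decide) (by decide) (by decide +kernel)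
    linear_combination a
  have e028 : v {(0 : Fin 9), 2, 8} = 0 + (c 0 0 + c 0 2 + c 0 8) + m 0 := by
    have a := h 0 0 2 8 (by decide) (by decide) (by decide) (by decide +kernel)
    linear_combination a
  have e038 : v {(0 : Fin 9), 3, 8} = 0 + (c 0 0 + c 0 3 + c 0 8) + m 0 := by
    have a := h 0 0 3 8 (by decide) (by decide) (by decide) (by decide +kernel)
    linear_combination a
  have e123 : v {(1 : Fin 9), 2, 3} = 0 + (c 0 1 + c 0 2 + c 0 3) + m 0 := by
    have a := h 0 1 2 3 (by decide) (by decide) (by decide) (by decide +kernel)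
    linear_combination a
  have e135 : v {(1 : Fin 9), 3, 5} = 0 + (c 0 1 + c 0 3 + c 0 5) + m 0 := by
    have a := h 0 1 3 5 (by decide) (by decide) (by decide) (by decide +kernel)
    linear_combination a
  have e137 : v {(1 : Fin 9), 3, 7} = 0 + (c 0 1 + c 0 3 + c 0 7) + m 0 := by
    have a := h 0 1 3 7 (by decide) (by decide) (by decide) (by decide +kernel)
    linear_combination a
  have e138 : v {(1 : Fin 9), 3, 8} = 0 + (c 0 1 + c 0 3 + c 0 8) + m 0 := by
    have a := h 0 1 3 8 (by decide) (by decide) (by decide) (by decide +kernel)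
    linear_combination a
  have e145 : v {(1 : Fin 9), 4, 5} = 0 + (c 0 1 + c 0 4 + c 0 5) + m 0 := by
    have a := h 0 1 4 5 (by decide) (by decide) (by decide) (by decide +kernel)
    linear_combination a
  have e046 : v {(0 : Fin 9), 4, 6} = t + (c 0 0 + c 0 4 + c 0 6) + m 0 := by
    have a1 := h 1 0 4 6 (by decide) (by decide) (by decide) (by decide +kernel)
    have a2 := h 1 0 1 3 (by decide) (by decide) (by decide) (by decide +kernel)
    have a3 := h 1 0 1 4 (by decide) (by decide) (by decide) (by decide +kernel)
    have a4 := h 1 0 3 6 (by decide) (by decide) (by decide) (by decide +kernel)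
    linear_combination a1 + a2 - a3 - a4 - e013 + e014 + e036
  have e056 : v {(0 : Fin 9), 5, 6} = t + (c 0 0 + c 0 5 + c 0 6) + m 0 := by
    have a1 := h 1 0 5 6 (by decide) (by decide) (by decide) (by decide +kernel)
    have a2 := h 1 0 1 3 (by decide) (by decide) (by decide) (by decide +kernel)
    have a3 := h 1 0 1 5 (by decide) (by decide) (by decide) (by decide +kernel)
    have a4 := h 1 0 3 6 (by decide) (by decide) (by decide) (by decide +kernel)
    linear_combination a1 + a2 - a3 - a4 - e013 + e015 + e036
  have e067 : v {(0 : Fin 9), 6, 7} = t + (c 0 0 + c 0 6 + c 0 7) + m 0 := by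
    have a1 := h 1 0 6 7 (by decide) (by decide) (by decide) (by decide +kernel)
    have a2 := h 1 0 1 3 (by decide) (by decide) (by decide) (by decide +kernel)
    have a3 := h 1 0 1 7 (by decide) (by decide) (by decide) (by decide +kernel)
    have a4 := h 1 0 3 6 (by decide) (by decide) (by decide) (by decide +kernel)
    linear_combination a1 + a2 - a3 - a4 - e013 + e017 + e036
  have e037 : v {(0 : Fin 9), 3, 7} = t + (c 0 0 + c 0 3 + c 0 7) + m 0 := by
    have a1 := h 1 0 3 7 (by decide) (by decide) (by decide) (by decide +kernel)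
    have a2 := h 1 0 1 6 (by decide) (by decide) (by decide) (by decide +kernel)
    have a3 := h 1 0 1 7 (by decide) (by decide) (by decide) (by decide +kernel)
    have a4 := h 1 0 3 6 (by decide) (by decide) (by decide) (by decide +kernel)
    linear_combination a1 + a2 - a3 - a4 - e016 + e017 + e036
  have e356 : v {(3 : Fin 9), 5, 6} = t + (c 0 3 + c 0 5 + c 0 6) + m 0 := by
    have a1 := h 1 3 5 6 (by decide) (by decide) (by decide) (by decide +kernel)
    have a2 := h 1 0 1 3 (by decide) (by decide) (by decide) (by decide +kernel)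
    have a3 := h 1 0 3 6 (by decide) (by decide) (by decide) (by decide +kernel)
    have a4 := h 1 1 3 5 (by decide) (by decide) (by decide) (by decide +kernel)
    linear_combination a1 + a2 - a3 - a4 - e013 + e036 + e135
  have e357 : v {(3 : Fin 9), 5, 7} = t + (c 0 3 + c 0 5 + c 0 7) + m 0 := by
    have a1 := h 1 3 5 7 (by decide) (by decide) (by decide) (by decide +kernel)
    have a2 := h 1 0 1 3 (by decide) (by decide) (by decide) (by decide +kernel)
    have a3 := h 1 0 3 7 (by decide) (by decide) (by decide) (by decide +kernel)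
    have a4 := h 1 1 3 5 (by decide) (by decide) (by decide) (by decide +kernel)
    linear_combination a1 + a2 - a3 - a4 - e013 + e037 + e135
  have e367 : v {(3 : Fin 9), 6, 7} = t + (c 0 3 + c 0 6 + c 0 7) + m 0 := by
    have a1 := h 1 3 6 7 (by decide) (by decide) (by decide) (by decide +kernel)
    have a2 := h 1 0 1 3 (by decide) (by decide) (by decide) (by decide +kernel)
    have a3 := h 1 0 3 6 (by decide) (by decide) (by decide) (by decide +kernel)
    have a4 := h 1 1 3 7 (by decide) (by decide) (by decide) (by decide +kernel)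
    linear_combination a1 + a2 - a3 - a4 - e013 + e036 + e137
  have e456 : v {(4 : Fin 9), 5, 6} = t + (c 0 4 + c 0 5 + c 0 6) + m 0 := by
    have a1 := h 1 4 5 6 (by decide) (by decide) (by decide) (by decide +kernel)
    have a2 := h 1 0 1 3 (by decide) (by decide) (by decide) (by decide +kernel)
    have a3 := h 1 0 1 4 (by decide) (by decide) (by decide) (by decide +kernel)
    have a4 := h 1 3 5 6 (by decide) (by decide) (by decide) (by decide +kernel)
    linear_combination a1 + a2 - a3 - a4 - e013 + e014 + e356
  have e457 : v {(4 : Fin 9), 5, 7} = t + (c 0 4 + c 0 5 + c 0 7) + m 0 := by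
    have a1 := h 1 4 5 7 (by decide) (by decide) (by decide) (by decide +kernel)
    have a2 := h 1 0 1 3 (by decide) (by decide) (by decide) (by decide +kernel)
    have a3 := h 1 0 1 4 (by decide) (by decide) (by decide) (by decide +kernel)
    have a4 := h 1 3 5 7 (by decide) (by decide) (by decide) (by decide +kernel)
    linear_combination a1 + a2 - a3 - a4 - e013 + e014 + e357
  have e047 : v {(0 : Fin 9), 4, 7} = t + (c 0 0 + c 0 4 + c 0 7) + m 0 := by
    have a1 := h 1 0 4 7 (by decide) (by decide) (by decide) (by decide +kernel)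
    have a2 := h 1 1 3 5 (by decide) (by decide) (by decide) (by decide +kernel)
    have a3 := h 1 0 1 4 (by decide) (by decide) (by decide) (by decide +kernel)
    have a4 := h 1 3 5 7 (by decide) (by decide) (by decide) (by decide +kernel)
    linear_combination a1 + a2 - a3 - a4 - e135 + e014 + e357
  have e467 : v {(4 : Fin 9), 6, 7} = t + (c 0 4 + c 0 6 + c 0 7) + m 0 := by
    have a1 := h 1 4 6 7 (by decide) (by decide) (by decide) (by decide +kernel)
    have a2 := h 1 0 1 3 (by decide) (by decide) (by decide) (by decide +kernel)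
    have a3 := h 1 0 1 4 (by decide) (by decide) (by decide) (by decide +kernel)
    have a4 := h 1 3 6 7 (by decide) (by decide) (by decide) (by decide +kernel)
    linear_combination a1 + a2 - a3 - a4 - e013 + e014 + e367
  have e567 : v {(5 : Fin 9), 6, 7} = t + (c 0 5 + c 0 6 + c 0 7) + m 0 := by
    have a1 := h 1 5 6 7 (by decide) (by decide) (by decide) (by decide +kernel)
    have a2 := h 1 0 1 3 (by decide) (by decide) (by decide) (by decide +kernel)
    have a3 := h 1 0 1 5 (by decide) (by decide) (by decide) (by decide +kernel)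
    have a4 := h 1 3 6 7 (by decide) (by decide) (by decide) (by decide +kernel)
    linear_combination a1 + a2 - a3 - a4 - e013 + e015 + e367
  have e057 : v {(0 : Fin 9), 5, 7} = t + (c 0 0 + c 0 5 + c 0 7) + m 0 := by
    have a1 := h 1 0 5 7 (by decide) (by decide) (by decide) (by decide +kernel)
    have a2 := h 1 0 1 4 (by decide) (by decide) (by decide) (by decide +kernel)
    have a3 := h 1 0 1 5 (by decide) (by decide) (by decide) (by decide +kernel)
    have a4 := h 1 0 4 7 (by decide) (by decide) (by decide) (by decide +kernel)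
    linear_combination a1 + a2 - a3 - a4 - e014 + e015 + e047
  have e236 : v {(2 : Fin 9), 3, 6} = t + (c 0 2 + c 0 3 + c 0 6) + m 0 := by
    have a1 := h 2 2 3 6 (by decide) (by decide) (by decide) (by decide +kernel)
    have a2 := h 2 0 1 3 (by decide) (by decide) (by decide) (by decide +kernel)
    have a3 := h 2 0 3 6 (by decide) (by decide) (by decide) (by decide +kernel)
    have a4 := h 2 1 2 3 (by decide) (by decide) (by decide) (by decide +kernel)
    linear_combination a1 + a2 - a3 - a4 - e013 + e036 + e123
  have e136 : v {(1 : Fin 9), 3, 6} = t + (c 0 1 + c 0 3 + c 0 6) + m 0 := by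
    have a1 := h 2 1 3 6 (by decide) (by decide) (by decide) (by decide +kernel)
    have a2 := h 2 0 2 3 (by decide) (by decide) (by decide) (by decide +kernel)
    have a3 := h 2 0 3 6 (by decide) (by decide) (by decide) (by decide +kernel)
    have a4 := h 2 1 2 3 (by decide) (by decide) (by decide) (by decide +kernel)
    linear_combination a1 + a2 - a3 - a4 - e023 + e036 + e123
  have e246 : v {(2 : Fin 9), 4, 6} = t + (c 0 2 + c 0 4 + c 0 6) + m 0 := by
    have a1 := h 2 2 4 6 (by decide) (by decide) (by decide) (by decide +kernel)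
    have a2 := h 2 0 1 3 (by decide) (by decide) (by decide) (by decide +kernel)
    have a3 := h 2 0 1 4 (by decide) (by decide) (by decide) (by decide +kernel)
    have a4 := h 2 2 3 6 (by decide) (by decide) (by decide) (by decide +kernel)
    linear_combination a1 + a2 - a3 - a4 - e013 + e014 + e236
  have e234 : v {(2 : Fin 9), 3, 4} = t + (c 0 2 + c 0 3 + c 0 4) + m 0 := by
    have a1 := h 2 2 3 4 (by decide) (by decide) (by decide) (by decide +kernel)
    have a2 := h 2 0 1 6 (by decide) (by decide) (by decide) (by decide +kernel)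
    have a3 := h 2 0 1 4 (by decide) (by decide) (by decide) (by decide +kernel)
    have a4 := h 2 2 3 6 (by decide) (by decide) (by decide) (by decide +kernel)
    linear_combination a1 + a2 - a3 - a4 - e016 + e014 + e236
  have e146 : v {(1 : Fin 9), 4, 6} = t + (c 0 1 + c 0 4 + c 0 6) + m 0 := by
    have a1 := h 2 1 4 6 (by decide) (by decide) (by decide) (by decide +kernel)
    have a2 := h 2 0 2 3 (by decide) (by decide) (by decide) (by decide +kernel)
    have a3 := h 2 0 1 4 (by decide) (by decide) (by decide) (by decide +kernel)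
    have a4 := h 2 2 3 6 (by decide) (by decide) (by decide) (by decide +kernel)
    linear_combination a1 + a2 - a3 - a4 - e023 + e014 + e236
  have e134 : v {(1 : Fin 9), 3, 4} = t + (c 0 1 + c 0 3 + c 0 4) + m 0 := by
    have a1 := h 2 1 3 4 (by decide) (by decide) (by decide) (by decide +kernel)
    have a2 := h 2 0 2 6 (by decide) (by decide) (by decide) (by decide +kernel)
    have a3 := h 2 0 1 4 (by decide) (by decide) (by decide) (by decide +kernel)
    have a4 := h 2 2 3 6 (by decide) (by decide) (by decide) (by decide +kernel)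
    linear_combination a1 + a2 - a3 - a4 - e026 + e014 + e236
  have e346 : v {(3 : Fin 9), 4, 6} = 2 * t + (c 0 3 + c 0 4 + c 0 6) + m 0 := by
    have a1 := h 2 3 4 6 (by decide) (by decide) (by decide) (by decide +kernel)
    have a2 := h 2 0 1 3 (by decide) (by decide) (by decide) (by decide +kernel)
    have a3 := h 2 0 3 6 (by decide) (by decide) (by decide) (by decide +kernel)
    have a4 := h 2 1 3 4 (by decide) (by decide) (by decide) (by decide +kernel)
    linear_combination a1 + a2 - a3 - a4 - e013 + e036 + e134
  have e348 : v {(3 : Fin 9), 4, 8} = t + (c 0 3 + c 0 4 + c 0 8) + m 0 := by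
    have a1 := h 2 3 4 8 (by decide) (by decide) (by decide) (by decide +kernel)
    have a2 := h 2 0 1 3 (by decide) (by decide) (by decide) (by decide +kernel)
    have a3 := h 2 0 3 8 (by decide) (by decide) (by decide) (by decide +kernel)
    have a4 := h 2 1 3 4 (by decide) (by decide) (by decide) (by decide +kernel)
    linear_combination a1 + a2 - a3 - a4 - e013 + e038 + e134
  have e368 : v {(3 : Fin 9), 6, 8} = t + (c 0 3 + c 0 6 + c 0 8) + m 0 := by
    have a1 := h 2 3 6 8 (by decide) (by decide) (by decide) (by decide +kernel)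
    have a2 := h 2 0 1 3 (by decide) (by decide) (by decide) (by decide +kernel)
    have a3 := h 2 0 3 6 (by decide) (by decide) (by decide) (by decide +kernel)
    have a4 := h 2 1 3 8 (by decide) (by decide) (by decide) (by decide +kernel)
    linear_combination a1 + a2 - a3 - a4 - e013 + e036 + e138
  have e468 : v {(4 : Fin 9), 6, 8} = t + (c 0 4 + c 0 6 + c 0 8) + m 0 := by
    have a1 := h 2 4 6 8 (by decide) (by decide) (by decide) (by decide +kernel)
    have a2 := h 2 0 1 3 (by decide) (by decide) (by decide) (by decide +kernel)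
    have a3 := h 2 0 1 4 (by decide) (by decide) (by decide) (by decide +kernel)
    have a4 := h 2 3 6 8 (by decide) (by decide) (by decide) (by decide +kernel)
    linear_combination a1 + a2 - a3 - a4 - e013 + e014 + e368
  have e248 : v {(2 : Fin 9), 4, 8} = t + (c 0 2 + c 0 4 + c 0 8) + m 0 := by
    have a1 := h 3 2 4 8 (by decide) (by decide) (by decide) (by decide +kernel)
    have a2 := h 3 0 2 3 (by decide) (by decide) (by decide) (by decide +kernel)
    have a3 := h 3 0 2 8 (by decide) (by decide) (by decide) (by decide +kernel)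
    have a4 := h 3 2 3 4 (by decide) (by decide) (by decide) (by decide +kernel)
    linear_combination a1 + a2 - a3 - a4 - e023 + e028 + e234
  have e238 : v {(2 : Fin 9), 3, 8} = t + (c 0 2 + c 0 3 + c 0 8) + m 0 := by
    have a1 := h 3 2 3 8 (by decide) (by decide) (by decide) (by decide +kernel)
    have a2 := h 3 0 2 4 (by decide) (by decide) (by decide) (by decide +kernel)
    have a3 := h 3 0 2 8 (by decide) (by decide) (by decide) (by decide +kernel)
    have a4 := h 3 2 3 4 (by decide) (by decide) (by decide) (by decide +kernel)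
    linear_combination a1 + a2 - a3 - a4 - e024 + e028 + e234
  have e268 : v {(2 : Fin 9), 6, 8} = t + (c 0 2 + c 0 6 + c 0 8) + m 0 := by
    have a1 := h 3 2 6 8 (by decide) (by decide) (by decide) (by decide +kernel)
    have a2 := h 3 0 2 3 (by decide) (by decide) (by decide) (by decide +kernel)
    have a3 := h 3 0 2 6 (by decide) (by decide) (by decide) (by decide +kernel)
    have a4 := h 3 2 3 8 (by decide) (by decide) (by decide) (by decide +kernel)
    linear_combination a1 + a2 - a3 - a4 - e023 + e026 + e238
  have e347 : v {(3 : Fin 9), 4, 7} = 2 * t + (c 0 3 + c 0 4 + c 0 7) + m 0 := by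
    have a1 := h 4 3 4 7 (by decide) (by decide) (by decide) (by decide +kernel)
    have a2 := h 4 0 1 3 (by decide) (by decide) (by decide) (by decide +kernel)
    have a3 := h 4 0 3 7 (by decide) (by decide) (by decide) (by decide +kernel)
    have a4 := h 4 1 3 4 (by decide) (by decide) (by decide) (by decide +kernel)
    linear_combination a1 + a2 - a3 - a4 - e013 + e037 + e134
  have e034 : v {(0 : Fin 9), 3, 4} = 2 * t + (c 0 0 + c 0 3 + c 0 4) + m 0 := by
    have a1 := h 4 0 3 4 (by decide) (by decide) (by decide) (by decide +kernel)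
    have a2 := h 4 1 3 7 (by decide) (by decide) (by decide) (by decide +kernel)
    have a3 := h 4 0 3 7 (by decide) (by decide) (by decide) (by decide +kernel)
    have a4 := h 4 1 3 4 (by decide) (by decide) (by decide) (by decide +kernel)
    linear_combination a1 + a2 - a3 - a4 - e137 + e037 + e134
  have e345 : v {(3 : Fin 9), 4, 5} = 2 * t + (c 0 3 + c 0 4 + c 0 5) + m 0 := by
    have a1 := h 4 3 4 5 (by decide) (by decide) (by decide) (by decide +kernel)
    have a2 := h 4 0 1 4 (by decide) (by decide) (by decide) (by decide +kernel)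
    have a3 := h 4 0 3 4 (by decide) (by decide) (by decide) (by decide +kernel)
    have a4 := h 4 1 4 5 (by decide) (by decide) (by decide) (by decide +kernel)
    linear_combination a1 + a2 - a3 - a4 - e014 + e034 + e145
  have e045 : v {(0 : Fin 9), 4, 5} = 2 * t + (c 0 0 + c 0 4 + c 0 5) + m 0 := by
    have a1 := h 5 0 4 5 (by decide) (by decide) (by decide) (by decide +kernel)
    have a2 := h 5 0 1 3 (by decide) (by decide) (by decide) (by decide +kernel)
    have a3 := h 5 0 1 5 (by decide) (by decide) (by decide) (by decide +kernel)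
    have a4 := h 5 0 3 4 (by decide) (by decide) (by decide) (by decide +kernel)
    linear_combination a1 + a2 - a3 - a4 - e013 + e015 + e034
  have e035 : v {(0 : Fin 9), 3, 5} = 2 * t + (c 0 0 + c 0 3 + c 0 5) + m 0 := by
    have a1 := h 5 0 3 5 (by decide) (by decide) (by decide) (by decide +kernel)
    have a2 := h 5 0 1 4 (by decide) (by decide) (by decide) (by decide +kernel)
    have a3 := h 5 0 1 5 (by decide) (by decide) (by decide) (by decide +kernel)
    have a4 := h 5 0 3 4 (by decide) (by decide) (by decide) (by decide +kernel)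
    linear_combination a1 + a2 - a3 - a4 - e014 + e015 + e034
  intro x y z hxy hyz
  rcases pos_check x y z hxy hyz with h0 | h0
  · have a := h 0 x y z hxy.ne (hxy.trans hyz).ne hyz.ne (by rw [h0, cv0, cv0, cv0]; rfl)
    rw [h0, a]; push_cast; ring
  · simp only [pos, List.mem_cons, Prod.mk.injEq, List.not_mem_nil, or_false] at h0
    rcases h0 with ⟨rfl, rfl, rfl⟩ | ⟨rfl, rfl, rfl⟩ | ⟨rfl, rfl, rfl⟩ | ⟨rfl, rfl, rfl⟩ | ⟨rfl, rfl, rfl⟩ | ⟨rfl, rfl, rfl⟩ | ⟨rfl, rfl, rfl⟩ | ⟨rfl, rfl, rfl⟩ | ⟨rfl, rfl, rfl⟩ | ⟨rfl, rfl, rfl⟩ | ⟨rfl, rfl, rfl⟩ | ⟨rfl, rfl, rfl⟩ | ⟨rfl, rfl, rfl⟩ | ⟨rfl, rfl, rfl⟩ | ⟨rfl, rfl, rfl⟩ | ⟨rfl, rfl, rfl⟩ | ⟨rfl, rfl, rfl⟩ | ⟨rfl, rfl, rfl⟩ | ⟨rfl, rfl, rfl⟩ | ⟨rfl, rfl, rfl⟩ | ⟨rfl, rfl, rfl⟩ | ⟨rfl, rfl, rfl⟩ | ⟨rfl, rfl, rfl⟩ | ⟨rfl, rfl, rfl⟩ | ⟨rfl, rfl, rfl⟩ | ⟨rfl, rfl, rfl⟩ | ⟨rfl, rfl, rfl⟩ | ⟨rfl, rfl, rfl⟩ | ⟨rfl, rfl, rfl⟩ | ⟨rfl, rfl, rfl⟩ | ⟨rfl, rfl, rfl⟩ | ⟨rfl, rfl, rfl⟩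
    · rw [show wz 0 3 4 = 2 from by decide +kernel]; push_cast; linear_combination e034
    · rw [show wz 0 3 5 = 2 from by decide +kernel]; push_cast; linear_combination e035
    · rw [show wz 0 3 6 = 1 from by decide +kernel]; push_cast; linear_combination e036
    · rw [show wz 0 3 7 = 1 from by decide +kernel]; push_cast; linear_combination e037
    · rw [show wz 0 4 5 = 2 from by decide +kernel]; push_cast; linear_combination e045
    · rw [show wz 0 4 6 = 1 from by decide +kernel]; push_cast; linear_combination e046
    · rw [show wz 0 4 7 = 1 from by decide +kernel]; push_cast; linear_combination e047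
    · rw [show wz 0 5 6 = 1 from by decide +kernel]; push_cast; linear_combination e056
    · rw [show wz 0 5 7 = 1 from by decide +kernel]; push_cast; linear_combination e057
    · rw [show wz 0 6 7 = 1 from by decide +kernel]; push_cast; linear_combination e067
    · rw [show wz 1 3 4 = 1 from by decide +kernel]; push_cast; linear_combination e134
    · rw [show wz 1 3 6 = 1 from by decide +kernel]; push_cast; linear_combination e136
    · rw [show wz 1 4 6 = 1 from by decide +kernel]; push_cast; linear_combination e146
    · rw [show wz 2 3 4 = 1 from by decide +kernel]; push_cast; linear_combination e234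
    · rw [show wz 2 3 6 = 1 from by decide +kernel]; push_cast; linear_combination e236
    · rw [show wz 2 3 8 = 1 from by decide +kernel]; push_cast; linear_combination e238
    · rw [show wz 2 4 6 = 1 from by decide +kernel]; push_cast; linear_combination e246
    · rw [show wz 2 4 8 = 1 from by decide +kernel]; push_cast; linear_combination e248
    · rw [show wz 2 6 8 = 1 from by decide +kernel]; push_cast; linear_combination e268
    · rw [show wz 3 4 5 = 2 from by decide +kernel]; push_cast; linear_combination e345
    · rw [show wz 3 4 6 = 2 from by decide +kernel]; push_cast; linear_combination e346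
    · rw [show wz 3 4 7 = 2 from by decide +kernel]; push_cast; linear_combination e347
    · rw [show wz 3 4 8 = 1 from by decide +kernel]; push_cast; linear_combination e348
    · rw [show wz 3 5 6 = 1 from by decide +kernel]; push_cast; linear_combination e356
    · rw [show wz 3 5 7 = 1 from by decide +kernel]; push_cast; linear_combination e357
    · rw [show wz 3 6 7 = 1 from by decide +kernel]; push_cast; linear_combination e367
    · rw [show wz 3 6 8 = 1 from by decide +kernel]; push_cast; linear_combination e368
    · rw [show wz 4 5 6 = 1 from by decide +kernel]; push_cast; linear_combination e456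
    · rw [show wz 4 5 7 = 1 from by decide +kernel]; push_cast; linear_combination e457
    · rw [show wz 4 6 7 = 1 from by decide +kernel]; push_cast; linear_combination e467
    · rw [show wz 4 6 8 = 1 from by decide +kernel]; push_cast; linear_combination e468
    · rw [show wz 5 6 7 = 1 from by decide +kernel]; push_cast; linear_combination e567

end Q163.Dr
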