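import Pool.Agent.Q163.Dr.Lin

/-!
# The tropical Plücker vector: basic properties
-/

set_option autoImplicit false

open Finset

namespace Q163.Dr

/-- The tropical Plücker vector. -/
noncomputable def w (B : Finset (Fin 9)) : ℝ := (T (∑ i ∈ B, 2 ^ (i : ℕ)) : ℝ)

lemma w_triple {x y z : Fin 9} (hxy : x ≠ y) (hxz : x ≠ z) (hyz : y ≠ z) :
    w {x, y, z} = (wz x y z : ℝ) := by
  unfold w wz
  rw [sum_insert (by simp [hxy, hxz]), sum_insert (by simp [hyz]), sum_singleton, ← add_assoc]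

lemma sum_triple {x y z : Fin 9} (hxy : x ≠ y) (hxz : x ≠ z) (hyz : y ≠ z) (c : Fin 9 → ℝ) :
    ∑ i ∈ ({x, y, z} : Finset (Fin 9)), c i = c x + c y + c z := by
  rw [sum_insert (by simp [hxy, hxz]), sum_insert (by simp [hyz]), sum_singleton, ← add_assoc]

lemma card_triple {x y z : Fin 9} (hxy : x ≠ y) (hxz : x ≠ z) (hyz : y ≠ z) :
    ({x, y, z} : Finset (Fin 9)).card = 3 := by
  rw [card_insert_of_notMem (by simp [hxy, hxz]), card_insert_of_notMem (by simp [hyz]),
    card_singleton]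

lemma exists_sorted {B : Finset (Fin 9)} (hB : B.card = 3) :
    ∃ x y z : Fin 9, x < y ∧ y < z ∧ B = {x, y, z} := by
  refine ⟨B.orderEmbOfFin hB 0, B.orderEmbOfFin hB 1, B.orderEmbOfFin hB 2, ?_, ?_, ?_⟩
  · exact (B.orderEmbOfFin hB).strictMono (by decide)
  · exact (B.orderEmbOfFin hB).strictMono (by decide)
  · have h := B.range_orderEmbOfFin hB
    ext e
    constructor
    · intro he
      have : e ∈ Set.range (B.orderEmbOfFin hB) := by rw [h]; exact_mod_cast he
      obtain ⟨i, rfl⟩ := this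
      fin_cases i <;> simp
    · intro he
      have h3 : ∀ i, B.orderEmbOfFin hB i ∈ B := fun i => B.orderEmbOfFin_mem hB i
      simp only [mem_insert, mem_singleton] at he
      rcases he with rfl | rfl | rfl <;> exact h3 _

lemma exists_member : ∀ k : Fin 6, ∃ x y z : Fin 9, x ≠ y ∧ x ≠ z ∧ y ≠ z ∧
    cv k x + cv k y + cv k z = wz x y z + mv k := by
  decide +kernel

/-- The vector as a real vector. -/
noncomputable def cr (k : Fin 6) (i : Fin 9) : ℝ := (cv k i : ℝ)

lemma cell_mem {k : Fin 6} {x y z : Fin 9} (hxy : x ≠ y) (hxz : x ≠ z) (hyz : y ≠ z)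
    (h : cv k x + cv k y + cv k z = wz x y z + mv k) (B' : Finset (Fin 9)) (hB' : B'.card = 3) :
    w {x, y, z} - ∑ i ∈ ({x, y, z} : Finset (Fin 9)), cr k i ≤ w B' - ∑ i ∈ B', cr k i := by
  obtain ⟨x', y', z', h1, h2, rfl⟩ := exists_sorted hB'
  rw [w_triple hxy hxz hyz, sum_triple hxy hxz hyz, w_triple h1.ne (h1.trans h2).ne h2.ne,
    sum_triple h1.ne (h1.trans h2).ne h2.ne]
  have a := cell_check k x' y' z' h1.ne (h1.trans h2).ne h2.ne
  have a' : (cv k x' : ℝ) + cv k y' + cv k z' ≤ wz x' y' z' + mv k := by exact_mod_cast a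
  have b' : (cv k x : ℝ) + cv k y + cv k z = wz x y z + mv k := by exact_mod_cast h
  simp only [cr]
  linarith

theorem lin (u : Finset (Fin 9) → ℝ)
    (H : ∀ c : Fin 9 → ℝ, ∃ c' : Fin 9 → ℝ,
          {B : Finset (Fin 9) | B.card = 3 ∧ ∀ B' : Finset (Fin 9), B'.card = 3 →
              w B - ∑ i ∈ B, c i ≤ w B' - ∑ i ∈ B', c i} ⊆
          {B : Finset (Fin 9) | B.card = 3 ∧ ∀ B' : Finset (Fin 9), B'.card = 3 →
              u B - ∑ i ∈ B, c' i ≤ u B' - ∑ i ∈ B', c' i}) :
    ∃ (t m : ℝ) (c : Fin 9 → ℝ), ∀ B : Finset (Fin 9), B.card = 3 →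
      u B = t * w B + ∑ i ∈ B, c i + m := by
  choose C hC using fun k : Fin 6 => H (cr k)
  choose X Y Z hXY hXZ hYZ hm using exists_member
  have key : ∀ (k : Fin 6) (x y z : Fin 9), x ≠ y → x ≠ z → y ≠ z →
      cv k x + cv k y + cv k z = wz x y z + mv k →
      u {x, y, z} = C k x + C k y + C k z +
        (u {X k, Y k, Z k} - (C k (X k) + C k (Y k) + C k (Z k))) := by
    intro k x y z hxy hxz hyz h
    have h1 := hC k ⟨card_triple hxy hxz hyz, cell_mem hxy hxz hyz h⟩
    have h2 := hC k ⟨card_triple (hXY k) (hXZ k) (hYZ k),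
      cell_mem (hXY k) (hXZ k) (hYZ k) (hm k)⟩
    have h3 := h1.2 _ h2.1
    have h4 := h2.2 _ h1.1
    rw [sum_triple hxy hxz hyz, sum_triple (hXY k) (hXZ k) (hYZ k)] at h3 h4
    linarith
  obtain ⟨t, ht⟩ := sorted_lin u C
    (fun k => u {X k, Y k, Z k} - (C k (X k) + C k (Y k) + C k (Z k))) key
  refine ⟨t, u {X 0, Y 0, Z 0} - (C 0 (X 0) + C 0 (Y 0) + C 0 (Z 0)), C 0, ?_⟩
  intro B hB
  obtain ⟨x, y, z, h1, h2, rfl⟩ := exists_sorted hB
  rw [ht x y z h1 h2, w_triple h1.ne (h1.trans h2).ne h2.ne,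
    sum_triple h1.ne (h1.trans h2).ne h2.ne]

/-- The three-term relations. -/
def Pl (v : Finset (Fin 9) → ℝ) : Prop :=
  ∀ (S : Finset (Fin 9)) (i j k l : Fin 9), S.card + 2 = 3 →
        i ∉ S → j ∉ S → k ∉ S → l ∉ S →
        i ≠ j → i ≠ k → i ≠ l → j ≠ k → j ≠ l → k ≠ l →
        ((v (insert i (insert j S)) + v (insert k (insert l S))
            = v (insert i (insert k S)) + v (insert j (insert l S)) ∧
          v (insert i (insert j S)) + v (insert k (insert l S))
            ≤ v (insert i (insert l S)) + v (insert j (insert k S))) ∨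
         (v (insert i (insert j S)) + v (insert k (insert l S))
            = v (insert i (insert l S)) + v (insert j (insert k S)) ∧
          v (insert i (insert j S)) + v (insert k (insert l S))
            ≤ v (insert i (insert k S)) + v (insert j (insert l S))) ∨
         (v (insert i (insert k S)) + v (insert j (insert l S))
            = v (insert i (insert l S)) + v (insert j (insert k S)) ∧
          v (insert i (insert k S)) + v (insert j (insert l S))
            ≤ v (insert i (insert j S)) + v (insert k (insert l S))))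

lemma T3_iff (x y z : ℕ) : T3 x y z = true ↔ (x = y ∧ x ≤ z) ∨ (x = z ∧ x ≤ y) ∨ (y = z ∧ y ≤ x) := by
  simp [T3, Nat.beq_eq, or_assoc]

lemma rep_false {s i j k l : Fin 9} (h1 : i ≠ s) (h2 : j ≠ s) (h3 : j ≠ i) (h4 : k ≠ s)
    (h5 : k ≠ i) (h6 : k ≠ j) (h7 : l ≠ s) (h8 : l ≠ i) (h9 : l ≠ j) (h10 : l ≠ k) :
    rep s i j k l = false := by
  have q : ∀ {a b : Fin 9}, a ≠ b → Nat.beq a.1 b.1 = false := by
    intro a b hab
    have : a.1 ≠ b.1 := fun h => hab (Fin.ext h)
    rw [← Bool.not_eq_true]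
    exact fun h => this (Nat.eq_of_beq_eq_true h)
  simp only [rep, q h1, q h2, q h3, q h4, q h5, q h6, q h7, q h8, q h9, q h10, Bool.or_false]

theorem plucker : Pl w := by
  intro S i j k l hS hi hj hk hl hij hik hil hjk hjl hkl
  obtain ⟨s, rfl⟩ := card_eq_one.1 (show S.card = 1 by omega)
  rw [mem_singleton] at hi hj hk hl
  have hP := plucker_check' s i j k l
  rw [rep_false hi hj hij.symm hk hik.symm hjk.symm hl hil.symm hjl.symm hkl.symm,
    Bool.false_or, T3_iff] at hP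
  rw [w_triple hij hi hj, w_triple hkl hk hl, w_triple hik hi hk, w_triple hjl hj hl,
    w_triple hil hi hl, w_triple hjk hj hk]
  exact_mod_cast hP

lemma v013 : w {0, 1, 3} = 0 := by
  rw [w_triple (by decide) (by decide) (by decide)]; exact_mod_cast (by decide +kernel : wz 0 1 3 = 0)
lemma v026 : w {0, 2, 6} = 0 := by
  rw [w_triple (by decide) (by decide) (by decide)]; exact_mod_cast (by decide +kernel : wz 0 2 6 = 0)
lemma v016 : w {0, 1, 6} = 0 := by
  rw [w_triple (by decide) (by decide) (by decide)]; exact_mod_cast (by decide +kernel : wz 0 1 6 = 0)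
lemma v023 : w {0, 2, 3} = 0 := by
  rw [w_triple (by decide) (by decide) (by decide)]; exact_mod_cast (by decide +kernel : wz 0 2 3 = 0)
lemma v012 : w {0, 1, 2} = 0 := by
  rw [w_triple (by decide) (by decide) (by decide)]; exact_mod_cast (by decide +kernel : wz 0 1 2 = 0)
lemma v036 : w {0, 3, 6} = 1 := by
  rw [w_triple (by decide) (by decide) (by decide)]; exact_mod_cast (by decide +kernel : wz 0 3 6 = 1)
lemma v358 : w {3, 5, 8} = 0 := by
  rw [w_triple (by decide) (by decide) (by decide)]; exact_mod_cast (by decide +kernel : wz 3 5 8 = 0)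
lemma v038 : w {0, 3, 8} = 0 := by
  rw [w_triple (by decide) (by decide) (by decide)]; exact_mod_cast (by decide +kernel : wz 0 3 8 = 0)
lemma v235 : w {2, 3, 5} = 0 := by
  rw [w_triple (by decide) (by decide) (by decide)]; exact_mod_cast (by decide +kernel : wz 2 3 5 = 0)
lemma v035 : w {0, 3, 5} = 2 := by
  rw [w_triple (by decide) (by decide) (by decide)]; exact_mod_cast (by decide +kernel : wz 0 3 5 = 2)
lemma v238 : w {2, 3, 8} = 1 := by
  rw [w_triple (by decide) (by decide) (by decide)]; exact_mod_cast (by decide +kernel : wz 2 3 8 = 1)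

theorem nontrivial : ¬ ∃ c : Fin 9 → ℝ, ∀ B : Finset (Fin 9), B.card = 3 →
    ∀ B' : Finset (Fin 9), B'.card = 3 →
      w B - ∑ i ∈ B, c i ≤ w B' - ∑ i ∈ B', c i := by
  rintro ⟨c, hc⟩
  have h1 := hc {0, 1, 2} (by decide) {0, 1, 3} (by decide)
  have h2 := hc {0, 1, 3} (by decide) {0, 1, 2} (by decide)
  have h3 := hc {0, 3, 6} (by decide) {0, 2, 6} (by decide)
  have h4 := hc {0, 2, 6} (by decide) {0, 3, 6} (by decide)
  rw [sum_triple (by decide) (by decide) (by decide), sum_triple (by decide) (by decide) (by decide)]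
    at h1 h2 h3 h4
  rw [v012, v013] at h1
  rw [v036, v026] at h3
  linarith

/-- The matroid part: a multiple of the table plus a linear function is a corank function only if
the multiple is zero. -/
theorem matroid_part (M : Matroid (Fin 9)) (hr : M.eRank = ((3 : ℕ) : ℕ∞)) (t m : ℝ) (c : Fin 9 → ℝ)
    (h : ∀ B : Finset (Fin 9), B.card = 3 →
      (((3 : ℕ) : ℝ) - ((M.eRk (B : Set (Fin 9))).toNat : ℝ)) = t * w B + ∑ i ∈ B, c i + m) :
    t = 0 := by
  have hfin : ∀ X : Set (Fin 9), ((M.eRk X).toNat : ℕ∞) = M.eRk X := by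
    intro X
    apply ENat.natCast_toNat
    intro h'
    have h2 := M.eRk_le_eRank X
    rw [h', hr] at h2
    exact absurd h2 (by simp)
  obtain ⟨r, hrdef⟩ : ∃ r : Set (Fin 9) → ℕ, ∀ X, r X = (M.eRk X).toNat := ⟨_, fun _ => rfl⟩
  have hr3 : ∀ X, r X ≤ 3 := by
    intro X
    have h2 := M.eRk_le_eRank X
    rw [← hfin X, hr, ← hrdef] at h2
    exact_mod_cast h2
  have hmono : ∀ X Y : Set (Fin 9), X ⊆ Y → r X ≤ r Y := by
    intro X Y hXY
    have h2 := M.eRk_mono hXY
    rw [← hfin X, ← hfin Y, ← hrdef, ← hrdef] at h2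
    exact_mod_cast h2
  have hsub : ∀ X Y : Set (Fin 9), r (X ∩ Y) + r (X ∪ Y) ≤ r X + r Y := by
    intro X Y
    have h2 := M.eRk_inter_add_eRk_union_le X Y
    rw [← hfin X, ← hfin Y, ← hfin (X ∩ Y), ← hfin (X ∪ Y), ← hrdef, ← hrdef, ← hrdef, ← hrdef] at h2
    exact_mod_cast h2
  have hins : ∀ (e : Fin 9) (X : Set (Fin 9)), r (insert e X) ≤ r X + 1 := by
    intro e X
    have h2 := M.eRk_insert_le_add_one e X
    rw [← hfin X, ← hfin (insert e X), ← hrdef, ← hrdef] at h2
    exact_mod_cast h2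
  have h' : ∀ x y z : Fin 9, x ≠ y → x ≠ z → y ≠ z →
      (3 : ℝ) - r {x, y, z} = t * w {x, y, z} + (c x + c y + c z) + m := by
    intro x y z hxy hxz hyz
    have := h {x, y, z} (card_triple hxy hxz hyz)
    rw [sum_triple hxy hxz hyz, ← hrdef] at this
    simpa using this
  -- `t` is an integer
  have a1 := h' 0 1 2 (by decide) (by decide) (by decide)
  have a2 := h' 0 3 6 (by decide) (by decide) (by decide)
  have a3 := h' 0 1 3 (by decide) (by decide) (by decide)
  have a4 := h' 0 2 6 (by decide) (by decide) (by decide)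
  rw [v012] at a1
  rw [v036] at a2
  rw [v013] at a3
  rw [v026] at a4
  have ht : t = ((r {0, 1, 3} + r {0, 2, 6} : ℤ) - (r {0, 1, 2} + r {0, 3, 6} : ℤ) : ℤ) := by
    push_cast
    linarith
  have b1 := h' 0 3 5 (by decide) (by decide) (by decide)
  have b2 := h' 2 3 8 (by decide) (by decide) (by decide)
  have b3 := h' 0 2 3 (by decide) (by decide) (by decide)
  have b4 := h' 3 5 8 (by decide) (by decide) (by decide)
  rw [v035] at b1
  rw [v238] at b2
  rw [v023] at b3
  rw [v358] at b4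
  have ht3 : 3 * t = ((r {0, 2, 3} + r {3, 5, 8} : ℤ) - (r {0, 3, 5} + r {2, 3, 8} : ℤ) : ℤ) := by
    push_cast
    linarith
  obtain ⟨z, hz⟩ : ∃ z : ℤ, z = (r {0, 1, 3} + r {0, 2, 6} : ℤ) - (r {0, 1, 2} + r {0, 3, 6} : ℤ) :=
    ⟨_, rfl⟩
  rw [← hz] at ht
  have hz3 : 3 * z = (r {0, 2, 3} + r {3, 5, 8} : ℤ) - (r {0, 3, 5} + r {2, 3, 8} : ℤ) := by
    rw [ht] at ht3
    exact_mod_cast ht3
  -- rank inequalities
  have s1 := hsub {0, 2, 3} {3, 5, 8}
  have s2 := hsub {0, 3, 5} {2, 3, 8}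
  have i1 : ({0, 2, 3} : Set (Fin 9)) ∩ {3, 5, 8} = {3} := by ext e; fin_cases e <;> simp
  have i2 : ({0, 3, 5} : Set (Fin 9)) ∩ {2, 3, 8} = {3} := by ext e; fin_cases e <;> simp
  have u1 : ({0, 2, 3} : Set (Fin 9)) ∪ {3, 5, 8} = {0, 2, 3, 5, 8} := by
    ext e; fin_cases e <;> simp
  have u2 : ({0, 3, 5} : Set (Fin 9)) ∪ {2, 3, 8} = {0, 2, 3, 5, 8} := by
    ext e; fin_cases e <;> simp
  rw [i1, u1] at s1
  rw [i2, u2] at s2
  have m1 := hmono {0, 2, 3} {0, 2, 3, 5, 8} (by intro e; fin_cases e <;> simp)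
  have m2 := hmono {3, 5, 8} {0, 2, 3, 5, 8} (by intro e; fin_cases e <;> simp)
  have m3 := hmono {0, 3, 5} {0, 2, 3, 5, 8} (by intro e; fin_cases e <;> simp)
  have m4 := hmono {2, 3, 8} {0, 2, 3, 5, 8} (by intro e; fin_cases e <;> simp)
  have R3 := hr3 {0, 2, 3, 5, 8}
  have two : ∀ x y : Fin 9, r {x, y, 3} ≤ r {3} + 2 := by
    intro x y
    have h1 := hins x {y, 3}
    have h2 := hins y {3}
    omega
  have e1 : r {0, 2, 3} ≤ r {3} + 2 := two 0 2
  have e2 : r {3, 5, 8} ≤ r {3} + 2 := by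
    have := two 5 8
    rwa [show ({5, 8, 3} : Set (Fin 9)) = {3, 5, 8} by ext e; fin_cases e <;> simp] at this
  have e3 : r {0, 3, 5} ≤ r {3} + 2 := by
    have := two 0 5
    rwa [show ({0, 5, 3} : Set (Fin 9)) = {0, 3, 5} by ext e; fin_cases e <;> simp] at this
  have e4 : r {2, 3, 8} ≤ r {3} + 2 := by
    have := two 2 8
    rwa [show ({2, 8, 3} : Set (Fin 9)) = {2, 3, 8} by ext e; fin_cases e <;> simp] at this
  have hz0 : z = 0 := by omega
  rw [ht, hz0]
  simp

end Q163.Dr
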