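import Mathlib

/-!
# A tropical Plücker vector of rank three on nine elements
-/

set_option autoImplicit false

namespace Q163.Dr

/-- The value at the 3-element set with binary code `m`. -/
def T (m : ℕ) : ℕ :=
  (if Nat.testBit 0x1011000000000011010000000000100010102000101020002020000010102001616000000000014000000 m
    then 1 else 0) +
  (if Nat.testBit 0x100000000000000010000000102020002000000 m then 2 else 0)

/-- The value at `{x, y, z}`. -/
def wz (x y z : Fin 9) : ℕ := T (2 ^ x.1 + 2 ^ y.1 + 2 ^ z.1)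

/-- The minimum of `x, y, z` is attained twice. -/
def T3 (x y z : ℕ) : Bool :=
  (Nat.beq x y && Nat.ble x z) || (Nat.beq x z && Nat.ble x y) || (Nat.beq y z && Nat.ble y x)

/-- Some two of the five indices are equal. -/
def rep (s i j k l : Fin 9) : Bool :=
  Nat.beq i.1 s.1 || Nat.beq j.1 s.1 || Nat.beq j.1 i.1 || Nat.beq k.1 s.1 || Nat.beq k.1 i.1 ||
  Nat.beq k.1 j.1 || Nat.beq l.1 s.1 || Nat.beq l.1 i.1 || Nat.beq l.1 j.1 || Nat.beq l.1 k.1

lemma plucker_check' : ∀ s i j k l : Fin 9, (rep s i j k l ||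
    T3 (wz i j s + wz k l s) (wz i k s + wz j l s) (wz i l s + wz j k s)) = true := by
  decide +kernel

/-- The six vectors that support the maximal cells. -/
def cv (k : Fin 6) : Fin 9 → ℕ :=
  ![![0, 0, 0, 0, 0, 0, 0, 0, 0], ![1, 0, 0, 1, 1, 1, 1, 1, 0], ![0, 0, 0, 1, 1, 0, 1, 0, 0],
    ![0, 0, 1, 1, 1, 0, 1, 0, 1], ![1, 0, 0, 2, 2, 1, 1, 1, 0], ![2, 0, 0, 2, 2, 2, 1, 1, 0]] k

/-- Minus the minimal values. -/
def mv (k : Fin 6) : ℕ := ![0, 2, 1, 2, 3, 4] k

lemma cell_check : ∀ (k : Fin 6) (x y z : Fin 9), x ≠ y → x ≠ z → y ≠ z →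
    cv k x + cv k y + cv k z ≤ wz x y z + mv k := by
  decide +kernel

end Q163.Dr
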